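import Mathlib

set_option autoImplicit false

namespace Pool.Agent.Results.MP_53071c_co.Disproof

/-! ### The problem's definitions -/

/-- Negate the letters of `u` in the positions `i, …, i+m` (positions are counted from `0`). -/
def negBlock {n : ℕ} (m i : ℕ) (u : Fin n → Bool) : Fin n → Bool :=
  fun p => if i ≤ p.val ∧ p.val ≤ i + m then !(u p) else u p

/-- The block of `u` in the positions `i, …, i+m` equals the keyword `a`. -/
def Matches {n m : ℕ} (a : Fin (m + 1) → Bool) (u : Fin n → Bool) (i : ℕ) : Prop :=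
  ∃ h : i + m < n, ∀ t : Fin (m + 1), u ⟨i + t.val, by have := t.isLt; omega⟩ = a t

/-- negation of a keyword -/
def neg {m : ℕ} (a : Fin (m + 1) → Bool) : Fin (m + 1) → Bool := fun t => !(a t)

/-- seminegation of a keyword: flips the letters in even positions, counted from `1`
(that is, in odd positions counted from `0`). -/
def semineg {m : ℕ} (a : Fin (m + 1) → Bool) : Fin (m + 1) → Bool :=
  fun t => if t.val % 2 = 1 then !(a t) else a t

/-- reversal of a keyword -/
def reversal {m : ℕ} (a : Fin (m + 1) → Bool) : Fin (m + 1) → Bool := fun t => a t.rev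

theorem negBlock_negBlock {n : ℕ} (m i : ℕ) (u : Fin n → Bool) :
    negBlock m i (negBlock m i u) = u := by
  funext p
  simp only [negBlock]
  split_ifs <;> simp

theorem matches_negBlock {n m : ℕ} (a : Fin (m + 1) → Bool) (u : Fin n → Bool) (i : ℕ)
    (h : Matches a u i) : Matches (neg a) (negBlock m i u) i := by
  obtain ⟨h1, h2⟩ := h
  refine ⟨h1, fun t => ?_⟩
  have ht := t.isLt
  simp only [negBlock, neg, h2 t]
  rw [if_pos (by omega)]

theorem neg_neg' {m : ℕ} (a : Fin (m + 1) → Bool) : neg (neg a) = a := by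
  funext t
  simp [neg]

/-- The graph `𝒢_n^{(a)}`: distinct words `u`, `v` of length `n` are adjacent iff `v` arises from
`u` by negating one block of consecutive letters which equals `a` or `¬a`. -/
def substGraph {m : ℕ} (n : ℕ) (a : Fin (m + 1) → Bool) : SimpleGraph (Fin n → Bool) where
  Adj u v := u ≠ v ∧ ∃ i : ℕ, (Matches a u i ∨ Matches (neg a) u i) ∧ v = negBlock m i u
  symm := ⟨by
    rintro u v ⟨hne, i, h, rfl⟩
    refine ⟨hne.symm, i, ?_, (negBlock_negBlock m i u).symm⟩
    rcases h with h | h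
    · exact Or.inr (matches_negBlock a u i h)
    · left
      have := matches_negBlock _ u i h
      rwa [neg_neg'] at this⟩
  loopless := ⟨fun u h => h.1 rfl⟩

/-- `b` is obtained from `a` by a finite composition of negation, seminegation and reversal. -/
def Related {m : ℕ} (a b : Fin (m + 1) → Bool) : Prop :=
  Relation.ReflTransGen (fun x y => y = neg x ∨ y = semineg x ∨ y = reversal x) a b

/-! ### Difference words -/

/-- `X` is the inner pattern `110x0` in the window starting at `k` (in the difference word). -/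
def Inner (n : ℕ) (d : ℕ → Bool) (k : ℕ) : Prop :=
  1 ≤ k ∧ k + 7 ≤ n ∧ d (k + 1) = true ∧ d (k + 2) = true ∧ d (k + 3) = false ∧ d (k + 5) = false

inductive Lc (n : ℕ) (d : ℕ → Bool) : ℕ → Prop
  | base (c : ℕ) : Inner n d c → d (c + 6) = false → d c = true → Lc n d (c + 7)
  | step (c : ℕ) : Inner n d c → d (c + 6) = false → Lc n d c → Lc n d (c + 7)

inductive Rc (n : ℕ) (d : ℕ → Bool) : ℕ → Prop
  | base (k : ℕ) : Inner n d (k + 7) → d (k + 7) = true → d (k + 7 + 6) = false → Rc n d k
  | step (k : ℕ) : Inner n d (k + 7) → d (k + 7) = true → Rc n d (k + 7) → Rc n d k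

def Elig (n : ℕ) (d : ℕ → Bool) (k : ℕ) : Prop :=
  Inner n d k ∧ (d k = true ∨ Lc n d k) ∧ (d (k + 6) = false ∨ Rc n d k)

def Full (n : ℕ) (d : ℕ → Bool) (k : ℕ) : Prop :=
  Inner n d k ∧ d k = true ∧ d (k + 6) = false

variable {n : ℕ} {u v : ℕ → Bool}

theorem Full.elig {k : ℕ} (h : Full n u k) : Elig n u k := ⟨h.1, Or.inl h.2.1, Or.inl h.2.2⟩

theorem nonoverlap {k k' : ℕ} (h : Inner n u k) (h' : Inner n u k') :
    k = k' ∨ k + 5 ≤ k' ∨ k' + 5 ≤ k := by
  obtain ⟨-, -, h1, h2, h3, h5⟩ := h
  obtain ⟨-, -, g1, g2, g3, g5⟩ := h'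
  by_contra hcon
  have : k' = k + 1 ∨ k' = k + 2 ∨ k' = k + 3 ∨ k' = k + 4 ∨
      k = k' + 1 ∨ k = k' + 2 ∨ k = k' + 3 ∨ k = k' + 4 := by omega
  rcases this with e | e | e | e | e | e | e | e <;> subst e <;> simp_all

theorem lc_elim {k : ℕ} (h : Lc n u k) : ∃ c, k = c + 7 ∧ Elig n u c ∧ u (c + 6) = false := by
  cases h with
  | base c h1 h2 h3 => exact ⟨c, rfl, ⟨h1, Or.inl h3, Or.inl h2⟩, h2⟩
  | step c h1 h2 h3 => exact ⟨c, rfl, ⟨h1, Or.inr h3, Or.inl h2⟩, h2⟩

theorem rc_elim {k : ℕ} (h : Rc n u k) : Elig n u (k + 7) ∧ u (k + 7) = true := by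
  cases h with
  | base _ h1 h2 h3 => exact ⟨⟨h1, Or.inl h2, Or.inl h3⟩, h2⟩
  | step _ h1 h2 h3 => exact ⟨⟨h1, Or.inl h2, Or.inr h3⟩, h2⟩

theorem separated {k i : ℕ} (h : Elig n u k) (hf : Full n u i) : k = i ∨ k + 7 ≤ i ∨ i + 7 ≤ k := by
  obtain ⟨hk, hl, hr⟩ := h
  obtain ⟨hi, hi0, hi6⟩ := hf
  rcases nonoverlap hk hi with e | e | e
  · exact Or.inl e
  · by_contra hcon
    have hi' := hi
    obtain ⟨-, -, g1, g2, g3, g5⟩ := hi
    have : i = k + 5 ∨ i = k + 6 := by omega
    rcases this with e' | e'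
    · subst e'
      rcases hr with h6 | hr
      · rw [show k + 5 + 1 = k + 6 by ring] at g1
        rw [h6] at g1; exact absurd g1 (by simp)
      · rcases nonoverlap (rc_elim hr).1.1 hi' with h | h | h <;> omega
    · subst e'
      rcases hr with h6 | hr
      · rw [h6] at hi0; exact absurd hi0 (by simp)
      · rcases nonoverlap (rc_elim hr).1.1 hi' with h | h | h <;> omega
  · by_contra hcon
    have hi' := hi
    obtain ⟨-, -, g1, g2, g3, g5⟩ := hi
    have : k = i + 5 ∨ k = i + 6 := by omega
    rcases this with e' | e'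
    · subst e'
      rcases hl with h0 | hl
      · rw [h0] at g5; exact absurd g5 (by simp)
      · obtain ⟨c, hc, hce, -⟩ := lc_elim hl
        rcases nonoverlap hce.1 hi' with h | h | h <;> omega
    · subst e'
      rcases hl with h0 | hl
      · rw [h0] at hi6; exact absurd hi6 (by simp)
      · obtain ⟨c, hc, hce, -⟩ := lc_elim hl
        rcases nonoverlap hce.1 hi' with h | h | h <;> omega

section move

variable {i : ℕ} (hf : Full n u i) (hag : ∀ p, p < n → p + 1 ≠ i → p ≠ i + 7 → v p = u p)
include hf hag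

theorem full_move : Full n v i := by
  obtain ⟨⟨h0, hn, h1, h2, h3, h5⟩, g0, g6⟩ := hf
  refine ⟨⟨h0, hn, ?_, ?_, ?_, ?_⟩, ?_, ?_⟩ <;> rw [hag _ (by omega) (by omega) (by omega)] <;>
    assumption

theorem inner_move {k : ℕ} (hk : Elig n u k) : Inner n v k := by
  rcases separated hk hf with e | e | e
  · subst e; exact (full_move hf hag).1
  · obtain ⟨h0, hn, h1, h2, h3, h5⟩ := hk.1
    refine ⟨h0, hn, ?_, ?_, ?_, ?_⟩ <;> rw [hag _ (by omega) (by omega) (by omega)] <;> assumption
  · obtain ⟨h0, hn, h1, h2, h3, h5⟩ := hk.1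
    refine ⟨h0, hn, ?_, ?_, ?_, ?_⟩ <;> rw [hag _ (by omega) (by omega) (by omega)] <;> assumption

theorem lc_i : Lc n v (i + 7) :=
  have h := full_move hf hag
  Lc.base i h.1 h.2.2 h.2.1

theorem rc_i {k : ℕ} (hk : k + 7 = i) : Rc n v k := by
  subst hk
  have h := full_move hf hag
  exact Rc.base k h.1 h.2.1 h.2.2

theorem lc_move {k : ℕ} (h : Lc n u k) (hki : k ≠ i) : Lc n v k := by
  induction h with
  | base c h1 h2 h3 =>
    have hc : Elig n u c := ⟨h1, Or.inl h3, Or.inl h2⟩
    have hin := inner_move hf hag hc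
    have hb := h1.2.1
    rcases separated hc hf with e | e | e
    · subst e; exact lc_i hf hag
    · refine Lc.base c hin ?_ ?_ <;> rw [hag _ (by omega) (by omega) (by omega)] <;> assumption
    · by_cases e' : c = i + 7
      · refine Lc.step c hin ?_ ?_
        · rw [hag _ (by omega) (by omega) (by omega)]; exact h2
        · rw [e']; exact lc_i hf hag
      · refine Lc.base c hin ?_ ?_ <;> rw [hag _ (by omega) (by omega) (by omega)] <;> assumption
  | step c h1 h2 h3 ih =>
    have hc : Elig n u c := ⟨h1, Or.inr h3, Or.inl h2⟩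
    have hin := inner_move hf hag hc
    have hb := h1.2.1
    rcases separated hc hf with e | e | e
    · subst e; exact lc_i hf hag
    · refine Lc.step c hin ?_ (ih (by omega))
      rw [hag _ (by omega) (by omega) (by omega)]; exact h2
    · refine Lc.step c hin ?_ (ih (by omega))
      rw [hag _ (by omega) (by omega) (by omega)]; exact h2

theorem rc_move {k : ℕ} (h : Rc n u k) (hki : k ≠ i) : Rc n v k := by
  induction h with
  | base k h1 h2 h3 =>
    have hc : Elig n u (k + 7) := ⟨h1, Or.inl h2, Or.inl h3⟩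
    have hin := inner_move hf hag hc
    have hb := h1.2.1
    rcases separated hc hf with e | e | e
    · exact rc_i hf hag e
    · by_cases e' : k + 7 + 7 = i
      · refine Rc.step k hin ?_ (rc_i hf hag e')
        rw [hag _ (by omega) (by omega) (by omega)]; exact h2
      · refine Rc.base k hin ?_ ?_ <;> rw [hag _ (by omega) (by omega) (by omega)] <;> assumption
    · refine Rc.base k hin ?_ ?_ <;> rw [hag _ (by omega) (by omega) (by omega)] <;> assumption
  | step k h1 h2 h3 ih =>
    have hc : Elig n u (k + 7) := ⟨h1, Or.inl h2, Or.inr h3⟩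
    have hin := inner_move hf hag hc
    have hb := h1.2.1
    rcases separated hc hf with e | e | e
    · exact rc_i hf hag e
    · refine Rc.step k hin ?_ (ih (by omega))
      rw [hag _ (by omega) (by omega) (by omega)]; exact h2
    · refine Rc.step k hin ?_ (ih (by omega))
      rw [hag _ (by omega) (by omega) (by omega)]; exact h2

theorem elig_move {k : ℕ} (h : Elig n u k) : Elig n v k := by
  have hin := inner_move hf hag h
  have hb := h.1.2.1
  rcases separated h hf with e | e | e
  · subst e; exact (full_move hf hag).elig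
  · refine ⟨hin, ?_, ?_⟩
    · rcases h.2.1 with h0 | h0
      · left; rw [hag _ (by omega) (by omega) (by omega)]; exact h0
      · right; exact lc_move hf hag h0 (by have := h.1.1; omega)
    · by_cases e' : k + 7 = i
      · right; exact rc_i hf hag e'
      · rcases h.2.2 with h0 | h0
        · left; rw [hag _ (by omega) (by omega) (by omega)]; exact h0
        · right; exact rc_move hf hag h0 (by omega)
  · refine ⟨hin, ?_, ?_⟩
    · by_cases e' : k = i + 7
      · right; rw [e']; exact lc_i hf hag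
      · rcases h.2.1 with h0 | h0
        · left; rw [hag _ (by omega) (by omega) (by omega)]; exact h0
        · right; exact lc_move hf hag h0 (by omega)
    · rcases h.2.2 with h0 | h0
      · left; rw [hag _ (by omega) (by omega) (by omega)]; exact h0
      · right; exact rc_move hf hag h0 (by omega)

end move

section wild

theorem not_wild {k k' : ℕ} (h : Elig n u k) (h' : Elig n u k') {p : ℕ} (hp : k ≤ p) (hp' : p ≤ k + 6)
    (hp4 : p ≠ k + 4) : p ≠ k' + 4 := by
  rcases nonoverlap h.1 h'.1 with e | e | e <;> omega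

variable (hag : ∀ p, p < n → (¬ ∃ k, Elig n u k ∧ p = k + 4) → v p = u p)
include hag

theorem wild_eq {k : ℕ} (h : Elig n u k) {p : ℕ} (hp : k ≤ p) (hp' : p ≤ k + 6) (hp4 : p ≠ k + 4) :
    v p = u p := by
  apply hag p (by have := h.1.2.1; omega)
  rintro ⟨k', hk', e⟩
  exact not_wild h hk' hp hp' hp4 e

theorem inner_wild {k : ℕ} (h : Elig n u k) : Inner n v k := by
  obtain ⟨h0, hn, h1, h2, h3, h5⟩ := h.1
  refine ⟨h0, hn, ?_, ?_, ?_, ?_⟩ <;> rw [wild_eq hag h (by omega) (by omega) (by omega)] <;>
    assumption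

theorem lc_wild {k : ℕ} (h : Lc n u k) : Lc n v k := by
  induction h with
  | base c h1 h2 h3 =>
    have hc : Elig n u c := ⟨h1, Or.inl h3, Or.inl h2⟩
    refine Lc.base c (inner_wild hag hc) ?_ ?_ <;>
      rw [wild_eq hag hc (by omega) (by omega) (by omega)] <;> assumption
  | step c h1 h2 h3 ih =>
    have hc : Elig n u c := ⟨h1, Or.inr h3, Or.inl h2⟩
    refine Lc.step c (inner_wild hag hc) ?_ ih
    rw [wild_eq hag hc (by omega) (by omega) (by omega)]; assumption

theorem rc_wild {k : ℕ} (h : Rc n u k) : Rc n v k := by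
  induction h with
  | base k h1 h2 h3 =>
    have hc : Elig n u (k + 7) := ⟨h1, Or.inl h2, Or.inl h3⟩
    refine Rc.base k (inner_wild hag hc) ?_ ?_ <;>
      rw [wild_eq hag hc (by omega) (by omega) (by omega)] <;> assumption
  | step k h1 h2 h3 ih =>
    have hc : Elig n u (k + 7) := ⟨h1, Or.inl h2, Or.inr h3⟩
    refine Rc.step k (inner_wild hag hc) ?_ ih
    rw [wild_eq hag hc (by omega) (by omega) (by omega)]; assumption

theorem elig_wild {k : ℕ} (h : Elig n u k) : Elig n v k := by
  refine ⟨inner_wild hag h, ?_, ?_⟩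
  · rcases h.2.1 with h0 | h0
    · left; rw [wild_eq hag h (by omega) (by omega) (by omega)]; exact h0
    · right; exact lc_wild hag h0
  · rcases h.2.2 with h0 | h0
    · left; rw [wild_eq hag h (by omega) (by omega) (by omega)]; exact h0
    · right; exact rc_wild hag h0

end wild

open Classical in
/-- flip the wildcard letter of every eligible window -/
noncomputable def theta (n : ℕ) (d : ℕ → Bool) (p : ℕ) : Bool :=
  if ∃ k, Elig n d k ∧ p = k + 4 then !(d p) else d p

/-- if `v` agrees with `theta n u` below `n`, the eligible windows are the same. -/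
theorem elig_theta_iff (hv : ∀ p, p < n → v p = theta n u p) (k : ℕ) : Elig n v k ↔ Elig n u k := by
  have h1 : ∀ k, Elig n u k → Elig n v k := by
    intro k
    apply elig_wild
    intro p hp hw
    rw [hv p hp, theta, if_neg hw]
  refine ⟨?_, h1 k⟩
  apply elig_wild
  intro p hp hw
  rw [hv p hp, theta, if_neg]
  rintro ⟨k, hk, e⟩
  exact hw ⟨k, h1 k hk, e⟩

theorem theta_theta (hv : ∀ p, p < n → v p = theta n u p) (p : ℕ) (hp : p < n) :
    theta n v p = u p := by
  have h : (∃ k, Elig n v k ∧ p = k + 4) ↔ (∃ k, Elig n u k ∧ p = k + 4) :=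
    exists_congr fun k => and_congr_left fun _ => elig_theta_iff hv k
  by_cases hw : ∃ k, Elig n u k ∧ p = k + 4
  · rw [theta, if_pos (h.2 hw), hv p hp, theta, if_pos hw, Bool.not_not]
  · rw [theta, if_neg (fun h' => hw (h.1 h')), hv p hp, theta, if_neg hw]

theorem elig_congr (hv : ∀ p, p < n → v p = u p) (k : ℕ) : Elig n v k ↔ Elig n u k :=
  ⟨elig_wild (fun p hp _ => (hv p hp).symm), elig_wild (fun p hp _ => hv p hp)⟩

/-! ### Passing between words and difference words -/

/-- difference word -/
def dif (U : ℕ → Bool) : ℕ → Bool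
  | 0 => U 0
  | p + 1 => xor (U p) (U (p + 1))

/-- inverse of `dif` -/
def acc (D : ℕ → Bool) : ℕ → Bool
  | 0 => D 0
  | p + 1 => xor (acc D p) (D (p + 1))

theorem dif_acc (D : ℕ → Bool) (p : ℕ) : dif (acc D) p = D p := by
  cases p with
  | zero => rfl
  | succ p => simp [dif, acc]

theorem dif_congr {U V : ℕ → Bool} (h : ∀ p, p < n → U p = V p) (p : ℕ) (hp : p < n) :
    dif U p = dif V p := by
  cases p with
  | zero => exact h 0 hp
  | succ p => simp only [dif]; rw [h p (by omega), h (p + 1) hp]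

theorem eq_of_dif {U V : ℕ → Bool} (h : ∀ p, p < n → dif U p = dif V p) (p : ℕ) (hp : p < n) :
    U p = V p := by
  induction p with
  | zero => exact h 0 hp
  | succ p ih =>
    have h1 := h (p + 1) hp
    simp only [dif] at h1
    rw [ih (by omega)] at h1
    have h2 : ∀ a b c : Bool, xor a b = xor a c → b = c := by decide
    exact h2 _ _ _ h1

/-- extension of a word by `false` -/
def ext {n : ℕ} (u : Fin n → Bool) (p : ℕ) : Bool := if h : p < n then u ⟨p, h⟩ else false

theorem ext_lt {u : Fin n → Bool} {p : ℕ} (h : p < n) : ext u p = u ⟨p, h⟩ := dif_pos h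

/-- The bijection on words. -/
noncomputable def Psi (u : Fin n → Bool) : Fin n → Bool :=
  fun p => acc (theta n (dif (ext u))) p

theorem dif_Psi (u : Fin n → Bool) (p : ℕ) (hp : p < n) :
    dif (ext (Psi u)) p = theta n (dif (ext u)) p := by
  rw [← dif_acc (theta n (dif (ext u))) p]
  apply dif_congr (n := n) _ p hp
  intro q hq
  rw [ext_lt hq]
  rfl

theorem word_ext {u v : Fin n → Bool} (h : ∀ p, p < n → dif (ext u) p = dif (ext v) p) : u = v := by
  funext p
  have := eq_of_dif h p.val p.isLt
  rwa [ext_lt p.isLt, ext_lt p.isLt] at this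

theorem Psi_Psi (u : Fin n → Bool) : Psi (Psi u) = u := by
  apply word_ext
  intro p hp
  rw [dif_Psi _ p hp]
  exact theta_theta (dif_Psi u) p hp

/-- the two keywords, `c = false` and `c = true` -/
def key (c : Bool) : Fin (7 + 1) → Bool :=
  ![false, true, false, true, true, !c, !c, !c]

/-- `D(key c)` occurs in the difference word at `k`. -/
def Occ (n : ℕ) (c : Bool) (d : ℕ → Bool) (k : ℕ) : Prop := Full n d k ∧ d (k + 4) = c

theorem match_iff (c : Bool) (u : Fin n → Bool) (i : ℕ) :
    (Matches (key c) u i ∨ Matches (neg (key c)) u i) ↔ Occ n c (dif (ext u)) (i + 1) := by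
  have gen : ∀ x0 x1 x2 x3 x4 x5 x6 x7 : Bool,
      ((x0 = false ∧ x1 = true ∧ x2 = false ∧ x3 = true ∧ x4 = true ∧ x5 = !c ∧ x6 = !c ∧ x7 = !c) ∨
       (x0 = true ∧ x1 = false ∧ x2 = true ∧ x3 = false ∧ x4 = false ∧ x5 = c ∧ x6 = c ∧ x7 = c)) ↔
      ((xor x1 x2 = true ∧ xor x2 x3 = true ∧ xor x3 x4 = false ∧ xor x5 x6 = false) ∧
        xor x0 x1 = true ∧ xor x6 x7 = false) ∧ xor x4 x5 = c := by
    intro x0 x1 x2 x3 x4 x5 x6 x7
    cases c <;> cases x0 <;> cases x1 <;> cases x2 <;> cases x3 <;> cases x4 <;> simp <;>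
      cases x5 <;> cases x6 <;> cases x7 <;> simp
  by_cases hn : i + 7 < n
  · have e : ∀ j, j ≤ 7 → ext u (i + j) = u ⟨i + (j % 8), by omega⟩ := by
      intro j hj
      rw [ext_lt (by omega)]
      congr 2
      omega
    have hm : ∀ a : Fin (7 + 1) → Bool, Matches a u i ↔ (ext u (i + 0) = a 0 ∧ ext u (i + 1) = a 1 ∧
        ext u (i + 2) = a 2 ∧ ext u (i + 3) = a 3 ∧ ext u (i + 4) = a 4 ∧ ext u (i + 5) = a 5 ∧
        ext u (i + 6) = a 6 ∧ ext u (i + 7) = a 7) := by
      intro a
      constructor
      · rintro ⟨h1, h2⟩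
        refine ⟨?_, ?_, ?_, ?_, ?_, ?_, ?_, ?_⟩ <;> rw [ext_lt (by omega)]
        · exact h2 0
        · exact h2 1
        · exact h2 2
        · exact h2 3
        · exact h2 4
        · exact h2 5
        · exact h2 6
        · exact h2 7
      · rintro ⟨g0, g1, g2, g3, g4, g5, g6, g7⟩
        refine ⟨hn, fun t => ?_⟩
        rw [ext_lt (by omega)] at g0 g1 g2 g3 g4 g5 g6 g7
        fin_cases t
        · exact g0
        · exact g1
        · exact g2
        · exact g3
        · exact g4
        · exact g5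
        · exact g6
        · exact g7
    rw [hm, hm]
    have g := gen (ext u (i + 0)) (ext u (i + 1)) (ext u (i + 2)) (ext u (i + 3)) (ext u (i + 4))
      (ext u (i + 5)) (ext u (i + 6)) (ext u (i + 7))
    have k1 : (ext u (i + 0) = key c 0 ∧ ext u (i + 1) = key c 1 ∧
        ext u (i + 2) = key c 2 ∧ ext u (i + 3) = key c 3 ∧ ext u (i + 4) = key c 4 ∧
        ext u (i + 5) = key c 5 ∧ ext u (i + 6) = key c 6 ∧ ext u (i + 7) = key c 7) ↔
        (ext u (i + 0) = false ∧ ext u (i + 1) = true ∧ ext u (i + 2) = false ∧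
        ext u (i + 3) = true ∧ ext u (i + 4) = true ∧ ext u (i + 5) = !c ∧ ext u (i + 6) = !c ∧
        ext u (i + 7) = !c) := Iff.rfl
    have k2 : (ext u (i + 0) = neg (key c) 0 ∧ ext u (i + 1) = neg (key c) 1 ∧
        ext u (i + 2) = neg (key c) 2 ∧ ext u (i + 3) = neg (key c) 3 ∧
        ext u (i + 4) = neg (key c) 4 ∧
        ext u (i + 5) = neg (key c) 5 ∧ ext u (i + 6) = neg (key c) 6 ∧
        ext u (i + 7) = neg (key c) 7) ↔
        (ext u (i + 0) = true ∧ ext u (i + 1) = false ∧ ext u (i + 2) = true ∧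
        ext u (i + 3) = false ∧ ext u (i + 4) = false ∧ ext u (i + 5) = c ∧ ext u (i + 6) = c ∧
        ext u (i + 7) = c) := by
      have : ∀ x : Bool, (x = !(!c)) ↔ x = c := by intro x; rw [Bool.not_not]
      have n5 : neg (key c) 5 = !(!c) := rfl
      have n6 : neg (key c) 6 = !(!c) := rfl
      have n7 : neg (key c) 7 = !(!c) := rfl
      rw [n5, n6, n7, this, this, this]
      exact Iff.rfl
    rw [k1, k2, g]
    constructor
    · rintro ⟨⟨⟨a1, a2, a3, a5⟩, a0, a6⟩, a4⟩
      exact ⟨⟨⟨by omega, by omega, a1, a2, a3, a5⟩, a0, a6⟩, a4⟩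
    · rintro ⟨⟨⟨-, -, a1, a2, a3, a5⟩, a0, a6⟩, a4⟩
      exact ⟨⟨⟨a1, a2, a3, a5⟩, a0, a6⟩, a4⟩
  · constructor
    · rintro (⟨h, -⟩ | ⟨h, -⟩) <;> exact absurd h hn
    · rintro ⟨⟨⟨-, h, -⟩, -⟩, -⟩
      omega

theorem dif_negBlock (u : Fin n → Bool) (i : ℕ) (p : ℕ) (hp : p < n) :
    dif (ext (negBlock 7 i u)) p = xor (dif (ext u) p) (decide (p = i ∨ p = i + 8)) := by
  have e : ∀ q, q < n → ext (negBlock 7 i u) q = xor (ext u q) (decide (i ≤ q ∧ q ≤ i + 7)) := by
    intro q hq
    rw [ext_lt hq, ext_lt hq, negBlock]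
    by_cases h : i ≤ q ∧ q ≤ i + 7
    · rw [if_pos h, decide_eq_true h, Bool.xor_true]
    · rw [if_neg h, decide_eq_false h, Bool.xor_false]
  have b1 : ∀ a b : Bool, xor (xor a true) (xor b true) = xor (xor a b) false := by decide
  have b2 : ∀ a b : Bool, xor (xor a true) (xor b false) = xor (xor a b) true := by decide
  have b3 : ∀ a b : Bool, xor (xor a false) (xor b true) = xor (xor a b) true := by decide
  have b4 : ∀ a b : Bool, xor (xor a false) (xor b false) = xor (xor a b) false := by decide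
  cases p with
  | zero =>
    simp only [dif]
    rw [e 0 hp]
    congr 1
    apply decide_eq_decide.mpr
    omega
  | succ p =>
    simp only [dif]
    rw [e p (by omega), e (p + 1) hp]
    by_cases h1 : i ≤ p ∧ p ≤ i + 7 <;> by_cases h2 : i ≤ p + 1 ∧ p + 1 ≤ i + 7
    · rw [decide_eq_true h1, decide_eq_true h2, b1, decide_eq_false (by omega)]
    · rw [decide_eq_true h1, decide_eq_false h2, b2, decide_eq_true (by omega)]
    · rw [decide_eq_false h1, decide_eq_true h2, b3, decide_eq_true (by omega)]
    · rw [decide_eq_false h1, decide_eq_false h2, b4, decide_eq_false (by omega)]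

theorem adj_Psi (c : Bool) (u v : Fin n → Bool) (h : (substGraph n (key c)).Adj u v) :
    (substGraph n (key (!c))).Adj (Psi u) (Psi v) := by
  obtain ⟨hne, i, hm, rfl⟩ := h
  refine ⟨fun h => hne ?_, i, ?_, ?_⟩
  · have := congrArg Psi h
    rwa [Psi_Psi, Psi_Psi] at this
  · rw [match_iff] at hm ⊢
    obtain ⟨hf, hc⟩ := hm
    have he := hf.elig
    have hb := hf.1.2.1
    have key1 : ∀ p, i + 1 ≤ p → p ≤ i + 1 + 6 → p ≠ i + 1 + 4 →
        dif (ext (Psi u)) p = dif (ext u) p := by
      intro p h1 h2 h3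
      rw [dif_Psi u p (by omega), theta, if_neg]
      rintro ⟨k, hk, e⟩
      exact not_wild he hk h1 h2 h3 e
    obtain ⟨⟨h0, hn, h1, h2, h3, h5⟩, g0, g6⟩ := hf
    refine ⟨⟨⟨h0, hn, ?_, ?_, ?_, ?_⟩, ?_, ?_⟩, ?_⟩
    · rw [key1 _ (by omega) (by omega) (by omega)]; exact h1
    · rw [key1 _ (by omega) (by omega) (by omega)]; exact h2
    · rw [key1 _ (by omega) (by omega) (by omega)]; exact h3
    · rw [key1 _ (by omega) (by omega) (by omega)]; exact h5
    · rw [key1 _ (by omega) (by omega) (by omega)]; exact g0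
    · rw [key1 _ (by omega) (by omega) (by omega)]; exact g6
    · rw [dif_Psi u _ (by omega), theta, if_pos ⟨i + 1, he, rfl⟩, hc]
  · rw [match_iff] at hm
    obtain ⟨hf, hc⟩ := hm
    have hag : ∀ p, p < n → p + 1 ≠ i + 1 → p ≠ i + 1 + 7 →
        dif (ext (negBlock 7 i u)) p = dif (ext u) p := by
      intro p hp h1 h2
      rw [dif_negBlock u i p hp]
      have : ¬ (p = i ∨ p = i + 8) := by omega
      simp [this]
    have hf' := full_move hf hag
    have hE : ∀ k, Elig n (dif (ext (negBlock 7 i u))) k ↔ Elig n (dif (ext u)) k := by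
      intro k
      constructor
      · apply elig_move hf'
        intro p hp h1 h2
        exact (hag p hp h1 h2).symm
      · exact elig_move hf hag
    apply word_ext
    intro p hp
    have h : (∃ k, Elig n (dif (ext (negBlock 7 i u))) k ∧ p = k + 4) ↔
        (∃ k, Elig n (dif (ext u)) k ∧ p = k + 4) :=
      exists_congr fun k => and_congr_left fun _ => hE k
    rw [dif_Psi _ p hp, dif_negBlock _ i p hp, dif_Psi _ p hp]
    by_cases hw : ∃ k, Elig n (dif (ext u)) k ∧ p = k + 4
    · rw [theta, if_pos (h.2 hw), theta, if_pos hw, dif_negBlock u i p hp, Bool.not_xor]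
    · rw [theta, if_neg (fun h' => hw (h.1 h')), theta, if_neg hw, dif_negBlock u i p hp]

/-- the isomorphism -/
noncomputable def iso (n : ℕ) : substGraph n (key false) ≃g substGraph n (key true) where
  toFun := Psi
  invFun := Psi
  left_inv := Psi_Psi
  right_inv := Psi_Psi
  map_rel_iff' := by
    intro u v
    constructor
    · intro h
      have := adj_Psi true _ _ h
      simpa [Psi_Psi] using this
    · exact adj_Psi false u v

/-- the orbit of the first keyword -/
def orbit : Finset (Fin (7 + 1) → Bool) :=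
  {key false, neg (key false), semineg (key false), neg (semineg (key false)),
    reversal (key false), neg (reversal (key false)), semineg (reversal (key false)),
    neg (semineg (reversal (key false)))}

set_option maxRecDepth 100000 in
theorem orbit_closed : ∀ x ∈ orbit, neg x ∈ orbit ∧ semineg x ∈ orbit ∧ reversal x ∈ orbit := by
  decide

set_option maxRecDepth 100000 in
theorem not_related : ¬ Related (key false) (key true) := by
  intro h
  have : ∀ x, Related (key false) x → x ∈ orbit := by
    intro x hx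
    induction hx with
    | refl => decide
    | tail _ hstep ih =>
      obtain ⟨h1, h2, h3⟩ := orbit_closed _ ih
      rcases hstep with rfl | rfl | rfl <;> assumption
  have h2 := this _ h
  revert h2
  decide

/-- There are two keywords of the same length (`01011111` and `01011000`) whose graphs are
isomorphic for every `n` although neither is obtained from the other by negations, seminegations
and reversals. -/
theorem result : ∃ (m : ℕ) (a b : Fin (m + 1) → Bool), 1 ≤ m ∧
    (∀ n : ℕ, 1 ≤ n → Nonempty (substGraph n a ≃g substGraph n b)) ∧ ¬ Related a b :=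
  ⟨7, key false, key true, by norm_num, fun n _ => ⟨iso n⟩, not_related⟩

end Pool.Agent.Results.MP_53071c_co.Disproof
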